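import Pool.Agent.Bsw.Any

/-!
# Arbitrary functions: no small basis

For arbitrary (not necessarily Borel) functions between zero-dimensional Polish spaces every basis of the functions
which are not of Baire class `α`, `1 ≤ α < ω₁`, has at least continuum many elements.
-/

set_option autoImplicit false

open scoped Ordinal Cardinal

namespace Pool.Agent.Results.MP_a23db6_lc.ArbitraryFunctions

open Pool.Agent.Bs2 Pool.Agent.Bsw

/-- Let `1 ≤ α < ω₁`.  If `B i`, `i ∈ ι`, are functions between zero-dimensional Polish spaces, not of Baire class `α`,
such that in every function between zero-dimensional Polish spaces which is not of Baire class `α` one of the `B i`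
embeds, then `ι` has at least continuum many elements. -/
theorem result : ∀ α : Ordinal.{0}, 1 ≤ α → α < ω₁ → ∀ (ι : Type) (B : ι → AnyFn),
    (∀ i, ¬ BaireClass α (B i).f) → (∀ F : AnyFn, ¬ BaireClass α F.f → ∃ i, (B i).Emb F) → 𝔠 ≤ #ι :=
  fun _ h1 _ _ B hB h => no_basis h1 B hB h

end Pool.Agent.Results.MP_a23db6_lc.ArbitraryFunctions
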