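import Pool.Agent.Bsw.Fin

/-!
# A finite basis for the Borel functions which are not of Baire class alpha

The problem asks whether for every countable ordinal `α ≥ 2` the functions between zero-dimensional Polish spaces
which are not of Baire class `α` have a finite basis for embeddability.  We prove it for all countable ordinals
`α ≥ 2`, for Borel functions.

The definitions (`Pool.Agent.Bs2.BaireClass`, `Pool.Agent.Bs2.BorelFn`, `Pool.Agent.Bs2.BorelFn.Emb`) are in
`Pool/Agent/Bs2/Stmt.lean`.
-/

set_option autoImplicit false

open scoped Ordinal

namespace Pool.Agent.Results.MP_a23db6_lc.BaireClassAlpha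

open Pool.Agent.Bs2

/-- For every countable ordinal `α ≥ 2` there are finitely many Borel functions `B i` between zero-dimensional Polish
spaces, not of Baire class `α`, such that a Borel function `F` between zero-dimensional Polish spaces is not of Baire
class `α` if and only if one of the `B i` embeds in `F`. -/
theorem result : ∀ α : Ordinal.{0}, 2 ≤ α → α < ω₁ → ∃ (n : ℕ) (B : Fin n → BorelFn),
    (∀ i, ¬ BaireClass α (B i).f) ∧ ∀ F : BorelFn, ¬ BaireClass α F.f ↔ ∃ i, (B i).Emb F :=
  fun _ h2 h => Pool.Agent.Bsw.main h2 h

end Pool.Agent.Results.MP_a23db6_lc.BaireClassAlpha
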